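import Pool.Agent.helper7.PQ.Spec

set_option autoImplicit false

/-! Row pq:RPE (helper28). -/

namespace Pool.Agent.PQ

theorem RPE_aux (t s a : ℕ) (r : ℕ → ZMod 2) (hr : ∀ n, r (n + t) = r n) :
    r ((24 * t * a + s + 1) / 24) = r ((s + 1) / 24) := by
  have h1 : (24 * t * a + s + 1) / 24 = (s + 1) / 24 + t * a := by
    have : 24 * t * a + s + 1 = (s + 1) + 24 * (t * a) := by ring
    rw [this, Nat.add_mul_div_left _ _ (by norm_num)]
  rw [h1]
  induction a with
  | zero => simp
  | succ a ih =>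
    have h2 : (24 * t * a + s + 1) / 24 = (s + 1) / 24 + t * a := by
      have : 24 * t * a + s + 1 = (s + 1) + 24 * (t * a) := by ring
      rw [this, Nat.add_mul_div_left _ _ (by norm_num)]
    have h3 : (s + 1) / 24 + t * (a + 1) = ((s + 1) / 24 + t * a) + t := by ring
    rw [h3, hr]
    exact ih h2

theorem RPE : RPE_stmt := by
  intro t r N N' _ hr _ h
  have h1 : N = 24 * t * (N / (24 * t)) + N % (24 * t) := (Nat.div_add_mod N (24 * t)).symm
  have h2 : N' = 24 * t * (N' / (24 * t)) + N % (24 * t) := by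
    rw [h]; exact (Nat.div_add_mod N' (24 * t)).symm
  have e1 := RPE_aux t (N % (24 * t)) (N / (24 * t)) r hr
  have e2 := RPE_aux t (N % (24 * t)) (N' / (24 * t)) r hr
  rw [← h1] at e1
  rw [← h2] at e2
  exact e1.trans e2.symm

end Pool.Agent.PQ
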